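import Pool.Agent.Y832.AU.Space

/-! The exponential generating functions with real or complex coefficients (by helper832, on top of
`Pool/Agent/Helper539/AuerExp.lean`). -/

namespace Pool.Agent.Y832.AU.K

open Set Filter Topology Pool.Agent.Helper539.Auer Pool.Agent.Y832.AU

variable {𝕜 : Type} [RCLike 𝕜]

/-- the exponential generating function -/
noncomputable def EK (x : ℕ → 𝕜) (t : ℝ) : 𝕜 :=
  ((Ex (fun m => RCLike.re (x m)) t : ℝ) : 𝕜) +
    ((Ex (fun m => RCLike.im (x m)) t : ℝ) : 𝕜) * RCLike.I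

/-- bounded sequences -/
def BK (x : ℕ → 𝕜) : Prop := ∃ M, ∀ m, ‖x m‖ ≤ M

/-- the shift -/
def shK (k : ℕ) (x : ℕ → 𝕜) : ℕ → 𝕜 := fun m => x (m + k)

theorem BK.shK {x : ℕ → 𝕜} (h : BK x) (k : ℕ) : BK (shK k x) := by
  obtain ⟨M, hM⟩ := h
  exact ⟨M, fun m => hM _⟩

theorem BK.re {x : ℕ → 𝕜} (h : BK x) : Bdd (fun m => RCLike.re (x m)) := by
  obtain ⟨M, hM⟩ := h
  exact ⟨M, fun m => (RCLike.abs_re_le_norm _).trans (hM m)⟩

theorem BK.im {x : ℕ → 𝕜} (h : BK x) : Bdd (fun m => RCLike.im (x m)) := by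
  obtain ⟨M, hM⟩ := h
  exact ⟨M, fun m => (RCLike.abs_im_le_norm _).trans (hM m)⟩

theorem BK.add {x y : ℕ → 𝕜} (hx : BK x) (hy : BK y) : BK (fun m => x m + y m) := by
  obtain ⟨M, hM⟩ := hx
  obtain ⟨N, hN⟩ := hy
  exact ⟨M + N, fun m => (norm_add_le _ _).trans (add_le_add (hM m) (hN m))⟩

theorem BK.mul (c : 𝕜) {x : ℕ → 𝕜} (hx : BK x) : BK (fun m => c * x m) := by
  obtain ⟨M, hM⟩ := hx
  exact ⟨‖c‖ * M, fun m => by
    rw [norm_mul]
    exact mul_le_mul_of_nonneg_left (hM m) (norm_nonneg _)⟩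

theorem BK.zero : BK (fun _ : ℕ => (0 : 𝕜)) := ⟨0, fun m => by rw [norm_zero]⟩

theorem BK.sum {ι : Type*} (s : Finset ι) (c : ι → 𝕜) (b : ι → ℕ → 𝕜) (hb : ∀ i, BK (b i)) :
    BK (fun m => ∑ i ∈ s, c i * b i m) := by
  classical
  induction s using Finset.induction_on with
  | empty =>
    simp only [Finset.sum_empty]
    exact BK.zero
  | insert a s ha ih =>
    simp only [Finset.sum_insert ha]
    exact ((hb a).mul (c a)).add ih

theorem Ex_const_zero (t : ℝ) : Ex (fun _ => 0) t = 0 := by simp [Ex]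

theorem re_EK (x : ℕ → 𝕜) (t : ℝ) : RCLike.re (EK x t) = Ex (fun m => RCLike.re (x m)) t := by
  unfold EK
  rw [map_add, RCLike.ofReal_re, RCLike.re_ofReal_mul, RCLike.I_re, mul_zero, add_zero]

theorem im_EK (x : ℕ → 𝕜) (t : ℝ) : RCLike.im (EK x t) = Ex (fun m => RCLike.im (x m)) t := by
  unfold EK
  rw [map_add, RCLike.ofReal_im, RCLike.im_ofReal_mul, zero_add]
  rcases RCLike.I_eq_zero_or_im_I_eq_one (K := 𝕜) with h | h
  · have h1 : (fun m => RCLike.im (x m)) = fun _ => (0 : ℝ) := by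
      funext m
      exact RCLike.im_eq_zero h (x m)
    rw [h1, Ex_const_zero, zero_mul]
  · rw [h, mul_one]

theorem EK_zero (t : ℝ) : EK (fun _ => (0 : 𝕜)) t = 0 := by
  apply RCLike.ext
  · rw [re_EK]
    simp [Ex]
  · rw [im_EK]
    simp [Ex]

theorem EK_add {x y : ℕ → 𝕜} (hx : BK x) (hy : BK y) (t : ℝ) :
    EK (fun m => x m + y m) t = EK x t + EK y t := by
  apply RCLike.ext
  · rw [map_add, re_EK, re_EK, re_EK, ← Ex_add hx.re hy.re]
    simp only [map_add]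
  · rw [map_add, im_EK, im_EK, im_EK, ← Ex_add hx.im hy.im]
    simp only [map_add]

theorem Ex_lin (a b : ℝ) {x y : ℕ → ℝ} (hx : Bdd x) (hy : Bdd y) (t : ℝ) :
    Ex (fun m => a * x m + b * y m) t = a * Ex x t + b * Ex y t := by
  have h1 : Bdd (fun m => a * x m) := by
    obtain ⟨M, hM⟩ := hx
    exact ⟨|a| * M, fun m => by
      rw [abs_mul]
      exact mul_le_mul_of_nonneg_left (hM m) (abs_nonneg _)⟩
  have h2 : Bdd (fun m => b * y m) := by
    obtain ⟨M, hM⟩ := hy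
    exact ⟨|b| * M, fun m => by
      rw [abs_mul]
      exact mul_le_mul_of_nonneg_left (hM m) (abs_nonneg _)⟩
  rw [Ex_add h1 h2, Ex_smul, Ex_smul]

theorem EK_smul (c : 𝕜) {x : ℕ → 𝕜} (hx : BK x) (t : ℝ) :
    EK (fun m => c * x m) t = c * EK x t := by
  apply RCLike.ext
  · rw [re_EK, RCLike.mul_re, re_EK, im_EK]
    have h1 : (fun m => RCLike.re (c * x m)) =
        fun m => RCLike.re c * RCLike.re (x m) + (-RCLike.im c) * RCLike.im (x m) := by
      funext m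
      rw [RCLike.mul_re]
      ring
    rw [h1, Ex_lin _ _ hx.re hx.im]
    ring
  · rw [im_EK, RCLike.mul_im, re_EK, im_EK]
    have h1 : (fun m => RCLike.im (c * x m)) =
        fun m => RCLike.re c * RCLike.im (x m) + RCLike.im c * RCLike.re (x m) := by
      funext m
      rw [RCLike.mul_im]
    rw [h1, Ex_lin _ _ hx.im hx.re]

theorem EK_sum {ι : Type*} (s : Finset ι) (c : ι → 𝕜) (b : ι → ℕ → 𝕜) (hb : ∀ i, BK (b i))
    (t : ℝ) : EK (fun m => ∑ i ∈ s, c i * b i m) t = ∑ i ∈ s, c i * EK (b i) t := by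
  classical
  induction s using Finset.induction_on with
  | empty =>
    simp only [Finset.sum_empty]
    exact EK_zero t
  | insert a s ha ih =>
    simp only [Finset.sum_insert ha]
    rw [EK_add ((hb a).mul (c a)) (BK.sum s c b hb), EK_smul _ (hb a), ih]

theorem norm_EK_le {x : ℕ → 𝕜} {M : ℝ} (hM : ∀ m, ‖x m‖ ≤ M) {t : ℝ} (ht : |t| ≤ 1 / 2) :
    ‖EK x t‖ ≤ 4 * M := by
  have hM0 : 0 ≤ M := (norm_nonneg _).trans (hM 0)
  have h1 : |Ex (fun m => RCLike.re (x m)) t| ≤ 2 * M :=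
    abs_Ex_le (fun m => (RCLike.abs_re_le_norm _).trans (hM m)) ht
  have h2 : |Ex (fun m => RCLike.im (x m)) t| ≤ 2 * M :=
    abs_Ex_le (fun m => (RCLike.abs_im_le_norm _).trans (hM m)) ht
  have h3 : ‖EK x t‖ ^ 2 = RCLike.re (EK x t) * RCLike.re (EK x t) +
      RCLike.im (EK x t) * RCLike.im (EK x t) := RCLike.norm_sq_eq_def
  rw [re_EK, im_EK] at h3
  have h4 : Ex (fun m => RCLike.re (x m)) t * Ex (fun m => RCLike.re (x m)) t ≤ (2 * M) * (2 * M) := by
    have := sq_le_sq' (abs_le.1 h1).1 (abs_le.1 h1).2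
    nlinarith
  have h5 : Ex (fun m => RCLike.im (x m)) t * Ex (fun m => RCLike.im (x m)) t ≤ (2 * M) * (2 * M) := by
    have := sq_le_sq' (abs_le.1 h2).1 (abs_le.1 h2).2
    nlinarith
  have h6 : 0 ≤ ‖EK x t‖ := norm_nonneg _
  by_contra hcon
  push Not at hcon
  nlinarith

theorem hasDerivAt_EK_shift {x : ℕ → 𝕜} (hx : BK x) (k : ℕ) (t : ℝ) :
    HasDerivAt (EK (shK k x)) (EK (shK (k + 1) x) t) t := by
  have h1 := (RCLike.ofRealCLM (K := 𝕜)).hasFDerivAt.comp_hasDerivAt t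
    (hasDerivAt_Ex_shift hx.re k t)
  have h2 := (RCLike.ofRealCLM (K := 𝕜)).hasFDerivAt.comp_hasDerivAt t
    (hasDerivAt_Ex_shift hx.im k t)
  exact h1.add (h2.mul_const RCLike.I)

theorem eq_zero_of_EK_shift {x : ℕ → 𝕜} (hx : BK x) {t₀ : ℝ} (h0 : 0 ≤ t₀) (h1 : t₀ ≤ 1 / 2)
    (h : ∀ k, EK (shK k x) t₀ = 0) : x = 0 := by
  have hre : (fun m => RCLike.re (x m)) = 0 := by
    apply eq_zero_of_Ex_shift hx.re h0 h1
    intro k
    have h2 := congrArg RCLike.re (h k)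
    rw [re_EK, map_zero] at h2
    exact h2
  have him : (fun m => RCLike.im (x m)) = 0 := by
    apply eq_zero_of_Ex_shift hx.im h0 h1
    intro k
    have h2 := congrArg RCLike.im (h k)
    rw [im_EK, map_zero] at h2
    exact h2
  funext m
  apply RCLike.ext
  · rw [Pi.zero_apply, map_zero]
    exact congrFun hre m
  · rw [Pi.zero_apply, map_zero]
    exact congrFun him m

end Pool.Agent.Y832.AU.K
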