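import Pool.Agent.Y832.AU.K.Main
import Pool.Agent.Helper539.AuerWalk

/-! Biorthogonal systems in renormings of `c₀(ω₁)` over the real or complex numbers: assembly
(by helper832). -/

namespace Pool.Agent.Y832.AU.K

open Set Filter Topology Pool.Agent.Helper539.Auer Pool.Agent.Y832.AU
open scoped BoundedContinuousFunction ZeroAtInfty

universe u

section

variable {𝕜 : Type} [RCLike 𝕜] {W : Type*} [LinearOrder W] [TopologicalSpace W]
  [DiscreteTopology W]

/-- finitely supported functionals -/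
def FinSup (d : PK 𝕜 W) (f : d.SpT →L[𝕜] 𝕜) : Prop :=
  ∃ c : W →₀ 𝕜, ∀ y : d.SpT, f y = c.sum (fun a r => r * d.coord y a)

theorem sum_eq (d : PK 𝕜 W) (c : W →₀ 𝕜) (y : d.SpT) :
    c.sum (fun a r => r * d.coord y a) = Finsupp.linearCombination 𝕜 (fun a => d.coord y a) c := by
  rw [Finsupp.linearCombination_apply]
  rfl

theorem finSup_span (d : PK 𝕜 W) (S : Set (d.SpT →L[𝕜] 𝕜)) (hS : ∀ f ∈ S, FinSup d f)
    (f : d.SpT →L[𝕜] 𝕜) (hf : f ∈ Submodule.span 𝕜 S) : FinSup d f := by
  refine Submodule.span_induction (p := fun f _ => FinSup d f) hS ?_ ?_ ?_ hf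
  · exact ⟨0, fun y => by simp⟩
  · rintro f g _ _ ⟨c, hc⟩ ⟨c', hc'⟩
    refine ⟨c + c', fun y => ?_⟩
    rw [sum_eq, map_add, ← sum_eq, ← sum_eq, ← hc, ← hc']
    rfl
  · rintro r f _ ⟨c, hc⟩
    refine ⟨r • c, fun y => ?_⟩
    rw [sum_eq, map_smul, ← sum_eq, ← hc]
    rfl

theorem countable_finsetsK {W : Type*} (B : Set W) (hB : B.Countable) :
    {s : Finset W | (s : Set W) ⊆ B}.Countable := by
  classical
  have : Countable B := hB.to_subtype
  have h1 : (Set.range fun s : Finset B => s.map (Function.Embedding.subtype _)).Countable :=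
    Set.countable_range _
  refine h1.mono ?_
  intro s hs
  refine ⟨s.subtype (fun a => a ∈ B), ?_⟩
  change (s.subtype (fun a => a ∈ B)).map (Function.Embedding.subtype _) = s
  rw [Finset.subtype_map, Finset.filter_true_of_mem]
  intro a ha
  exact hs ha

theorem countable_of_liK {𝕜 : Type} [RCLike 𝕜] {W : Type*} (B : Set W) (hB : B.Countable) {I : Type*} (c : I → W →₀ 𝕜)
    (hli : LinearIndependent 𝕜 c) (hmem : ∀ i, ((c i).support : Set W) ⊆ B) : Countable I := by
  classical
  -- finitely many indices for each finite set of coordinates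
  have hfin : ∀ s : Finset W, {i | (c i).support ⊆ s}.Finite := by
    intro s
    have h1 : LinearIndependent 𝕜 (fun i : {i | (c i).support ⊆ s} => c i) :=
      hli.comp _ Subtype.val_injective
    have h2 : ∀ i : {i | (c i).support ⊆ s}, c i ∈ Submodule.span 𝕜
        ((s.image (fun a => Finsupp.single a (1 : 𝕜)) : Finset (W →₀ 𝕜)) : Set (W →₀ 𝕜)) := by
      intro i
      rw [← Finsupp.sum_single (c i)]
      apply Submodule.sum_mem
      intro a ha
      have h3 : Finsupp.single a ((c i) a) = (c i) a • Finsupp.single a (1 : 𝕜) := by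
        rw [Finsupp.smul_single, smul_eq_mul, mul_one]
      rw [h3]
      apply Submodule.smul_mem
      apply Submodule.subset_span
      rw [Finset.coe_image]
      exact ⟨a, i.2 ha, rfl⟩
    have h3 : Set.range (fun i : {i | (c i).support ⊆ s} => c i) ⊆ Submodule.span 𝕜
        ((s.image (fun a => Finsupp.single a (1 : 𝕜)) : Finset (W →₀ 𝕜)) : Set (W →₀ 𝕜)) := by
      rintro _ ⟨i, rfl⟩
      exact h2 i
    exact h1.finite_of_le_span_finite _
      ((s.image (fun a => Finsupp.single a (1 : 𝕜)) : Finset (W →₀ 𝕜)) : Set (W →₀ 𝕜)) h3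
  have hcount : (⋃ s ∈ {s : Finset W | (s : Set W) ⊆ B}, {i | (c i).support ⊆ s}).Countable := by
    refine Set.Countable.biUnion ?_ (fun s _ => (hfin s).countable)
    exact countable_finsetsK B hB
  have huniv : (Set.univ : Set I) ⊆
      ⋃ s ∈ {s : Finset W | (s : Set W) ⊆ B}, {i | (c i).support ⊆ s} := by
    intro i _
    simp only [mem_iUnion, exists_prop]
    exact ⟨(c i).support, hmem i, Finset.Subset.refl _⟩
  exact Set.countable_univ_iff.1 (hcount.mono huniv)

theorem countable_index (d : PK 𝕜 W) {I : Type*} (x : I → d.SpT) (f : I → d.SpT →L[𝕜] 𝕜)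
    (hbi : ∀ i, f i (x i) = 1) (hbi' : ∀ i j, i ≠ j → f i (x j) = 0)
    (c : I → W →₀ 𝕜) (hcf : ∀ i, ∀ y : d.SpT, f i y = (c i).sum (fun a r => r * d.coord y a))
    (hB : (⋃ i, ((c i).support : Set W)).Countable) : Countable I := by
  classical
  obtain ⟨B, hBdef⟩ : ∃ B : Set W, B = ⋃ i, ((c i).support : Set W) := ⟨_, rfl⟩
  rw [← hBdef] at hB
  have hli : LinearIndependent 𝕜 c := by
    rw [linearIndependent_iff']
    intro s g hg i hi
    have h1 := congrArg (Finsupp.linearCombination 𝕜 (fun a => d.coord (x i) a)) hg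
    rw [map_sum, map_zero] at h1
    have h2 : ∀ j, Finsupp.linearCombination 𝕜 (fun a => d.coord (x i) a) (c j) = f j (x i) :=
      fun j => by rw [← sum_eq, ← hcf]
    rw [Finset.sum_eq_single i] at h1
    · rw [map_smul, h2, hbi, smul_eq_mul, mul_one] at h1
      exact h1
    · intro j _ hj
      rw [map_smul, h2, hbi' j i hj, smul_zero]
    · intro h
      exact absurd hi h
  have hmem : ∀ i, ((c i).support : Set W) ⊆ B := fun i => by
    rw [hBdef]
    exact subset_iUnion (fun i => ((c i).support : Set W)) i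
  exact countable_of_liK B hB c hli hmem

theorem coord_vec_zero (d : PK 𝕜 W) (δ : W) (v : C₀(W, 𝕜)) (hv : ∀ w < δ, v w = 0) (a : W)
    (ha : a < δ) : d.coord (d.vec v) a = 0 := by
  rw [PK.coord_vec, PK.Phi, hv a ha, zero_add]
  have h1 : d.rd a v = fun _ => 0 := by
    funext m
    by_cases hm : ∃ β, β < a ∧ d.e a β = m
    · obtain ⟨β, hβ, rfl⟩ := hm
      rw [d.rd_apply hβ, hv β (hβ.trans ha)]
    · rw [d.rd_of_not hm]
  unfold PK.rr
  rw [h1, EK_zero, mul_zero]

/-- the isomorphism from `c₀(W)` -/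
noncomputable def iso (d : PK 𝕜 W) : C₀(W, 𝕜) ≃L[𝕜] d.SpT :=
  let Λ : C₀(W, 𝕜) →ₗ[𝕜] d.SpT :=
    { toFun := d.vec
      map_add' := fun u v => Subtype.ext (map_add d.PhiL u v)
      map_smul' := fun c v => Subtype.ext (map_smul d.PhiL c v) }
  have hbij : Function.Bijective Λ := by
    constructor
    · intro u v huv
      have h1 : Λ (u - v) = 0 := by rw [map_sub, huv, sub_self]
      have h2 := d.norm_le_vec (u - v)
      have h3 : d.vec (u - v) = 0 := h1
      rw [h3, norm_zero, mul_zero] at h2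
      exact sub_eq_zero.1 (norm_le_zero_iff.1 h2)
    · intro y
      exact d.exists_vec y
  LinearEquiv.toContinuousLinearEquivOfBounds (LinearEquiv.ofBijective Λ hbij) 2 2
    (fun v => d.norm_PhiL_le v)
    (fun y => by
      obtain ⟨v, hv⟩ := d.exists_vec y
      have h1 : (LinearEquiv.ofBijective Λ hbij).symm y = v := by
        rw [LinearEquiv.symm_apply_eq]
        exact hv.symm
      rw [h1, ← hv]
      exact d.norm_le_vec v)

theorem iso_apply (d : PK 𝕜 W) (v : C₀(W, 𝕜)) : iso d v = d.vec v := rfl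

end

end Pool.Agent.Y832.AU.K
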