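import Pool.Agent.Y832.AU.K.Exp

/-! The renormed `c₀` space over the real or complex numbers (adapted by helper832 from
`Pool/Agent/Helper539/AuerSpace.lean`). -/

namespace Pool.Agent.Y832.AU.K

open Set Filter Topology Pool.Agent.Helper539.Auer Pool.Agent.Y832.AU
open scoped BoundedContinuousFunction ZeroAtInfty

/-- Combinatorial data: injections below each point and parameters in `[0,1/2]`. -/
structure PK (𝕜 : Type) (W : Type*) [LinearOrder W] where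
  e : W → W → ℕ
  t : W → ℝ
  he : ∀ a, InjOn (e a) (Iio a)
  ht0 : ∀ a, 0 ≤ t a
  ht1 : ∀ a, t a ≤ 1 / 2
  kap : ℝ
  hkap0 : 0 < kap
  hkap1 : kap ≤ 1 / 32

variable {𝕜 : Type} [RCLike 𝕜] {W : Type*} [LinearOrder W]

namespace PK

open Classical in
/-- the sequence read from `v` through the injection `e a` -/
noncomputable def rd (d : PK 𝕜 W) (a : W) (v : W → 𝕜) (m : ℕ) : 𝕜 :=
  if h : ∃ β, β < a ∧ d.e a β = m then v h.choose else 0

theorem rd_apply (d : PK 𝕜 W) {a β : W} (hβ : β < a) (v : W → 𝕜) :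
    d.rd a v (d.e a β) = v β := by
  have h : ∃ γ, γ < a ∧ d.e a γ = d.e a β := ⟨β, hβ, rfl⟩
  rw [rd, dif_pos h]
  congr 1
  exact d.he a h.choose_spec.1 hβ h.choose_spec.2

theorem rd_of_not (d : PK 𝕜 W) {a : W} {m : ℕ} (h : ¬ ∃ β, β < a ∧ d.e a β = m) (v : W → 𝕜) :
    d.rd a v m = 0 := by
  rw [rd, dif_neg h]

theorem rd_bound (d : PK 𝕜 W) (a : W) {v : W → 𝕜} {M : ℝ} (hv : ∀ w, ‖v w‖ ≤ M) (m : ℕ) :
    ‖d.rd a v m‖ ≤ M := by
  by_cases h : ∃ β, β < a ∧ d.e a β = m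
  · obtain ⟨β, hβ, rfl⟩ := h
    rw [d.rd_apply hβ]
    exact hv β
  · rw [d.rd_of_not h, norm_zero]
    exact (norm_nonneg _).trans (hv a)

theorem rd_sum (d : PK 𝕜 W) (a : W) {ι : Type*} (s : Finset ι) (c : ι → 𝕜) (v : ι → W → 𝕜) :
    d.rd a (fun w => ∑ i ∈ s, c i * v i w) = fun m => ∑ i ∈ s, c i * d.rd a (v i) m := by
  funext m
  by_cases h : ∃ β, β < a ∧ d.e a β = m
  · obtain ⟨β, hβ, rfl⟩ := h
    simp only [d.rd_apply hβ]
  · simp only [d.rd_of_not h, mul_zero, Finset.sum_const_zero]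

theorem rd_add (d : PK 𝕜 W) (a : W) (u v : W → 𝕜) :
    d.rd a (fun w => u w + v w) = fun m => d.rd a u m + d.rd a v m := by
  funext m
  by_cases h : ∃ β, β < a ∧ d.e a β = m
  · obtain ⟨β, hβ, rfl⟩ := h
    simp only [d.rd_apply hβ]
  · simp only [d.rd_of_not h, add_zero]

theorem rd_smul (d : PK 𝕜 W) (a : W) (c : 𝕜) (v : W → 𝕜) :
    d.rd a (fun w => c * v w) = fun m => c * d.rd a v m := by
  funext m
  by_cases h : ∃ β, β < a ∧ d.e a β = m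
  · obtain ⟨β, hβ, rfl⟩ := h
    simp only [d.rd_apply hβ]
  · simp only [d.rd_of_not h, mul_zero]

theorem rd_congr (d : PK 𝕜 W) {a a' δ : W} (ha : δ ≤ a) (ha' : δ ≤ a')
    (h : ∀ β, β < δ → d.e a β = d.e a' β) (v : W → 𝕜) (hv : ∀ w, δ ≤ w → v w = 0) :
    d.rd a v = d.rd a' v := by
  have aux : ∀ b b' : W, δ ≤ b → δ ≤ b' → (∀ β, β < δ → d.e b β = d.e b' β) →
      ∀ m, (∃ β, β < b ∧ d.e b β = m) → d.rd b v m = d.rd b' v m := by
    intro b b' hb hb' hbb m hm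
    obtain ⟨β, hβ, rfl⟩ := hm
    rw [d.rd_apply hβ]
    by_cases hβδ : β < δ
    · rw [hbb β hβδ, d.rd_apply (lt_of_lt_of_le hβδ hb')]
    · rw [hv β (not_lt.mp hβδ)]
      by_cases h2 : ∃ γ, γ < b' ∧ d.e b' γ = d.e b β
      · obtain ⟨γ, hγ, hγe⟩ := h2
        rw [← hγe, d.rd_apply hγ]
        by_cases hγδ : γ < δ
        · exfalso
          rw [← hbb γ hγδ] at hγe
          have := d.he b (lt_of_lt_of_le hγδ hb : γ ∈ Iio b) hβ hγe
          rw [this] at hγδ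
          exact hβδ hγδ
        · rw [hv γ (not_lt.mp hγδ)]
      · rw [d.rd_of_not h2]
  funext m
  by_cases h1 : ∃ β, β < a ∧ d.e a β = m
  · exact aux a a' ha ha' h m h1
  · by_cases h2 : ∃ β, β < a' ∧ d.e a' β = m
    · exact (aux a' a ha' ha (fun β hβ => (h β hβ).symm) m h2).symm
    · rw [d.rd_of_not h1, d.rd_of_not h2]

/-- the small functional `r_a` -/
noncomputable def rr (d : PK 𝕜 W) (a : W) (v : W → 𝕜) : 𝕜 := (d.kap : 𝕜) * EK (d.rd a v) (d.t a)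

theorem abs_rr_le' (d : PK 𝕜 W) (a : W) {v : W → 𝕜} {M : ℝ} (hv : ∀ w, ‖v w‖ ≤ M) :
    ‖d.rr a v‖ ≤ 4 * d.kap * M := by
  have h1 : |d.t a| ≤ 1 / 2 := by
    rw [abs_of_nonneg (d.ht0 a)]
    exact d.ht1 a
  have h2 := norm_EK_le (d.rd_bound a hv) h1
  unfold rr
  rw [norm_mul, RCLike.norm_ofReal, abs_of_pos d.hkap0]
  have h3 := mul_le_mul_of_nonneg_left h2 d.hkap0.le
  linarith

theorem abs_rr_le (d : PK 𝕜 W) (a : W) {v : W → 𝕜} {M : ℝ} (hv : ∀ w, ‖v w‖ ≤ M) :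
    ‖d.rr a v‖ ≤ M / 8 := by
  have h1 := d.abs_rr_le' a hv
  have h2 : 0 ≤ M := (norm_nonneg _).trans (hv a)
  have h3 := mul_le_mul_of_nonneg_right d.hkap1 h2
  linarith

/-- the functional `φ_a = e_a* + r_a` on coordinate vectors -/
noncomputable def Phi (d : PK 𝕜 W) (v : W → 𝕜) (a : W) : 𝕜 := v a + d.rr a v

theorem Phi_sum (d : PK 𝕜 W) (a : W) {ι : Type*} (s : Finset ι) (c : ι → 𝕜) (v : ι → W → 𝕜)
    (hv : ∀ i, ∃ M, ∀ w, ‖v i w‖ ≤ M) :
    d.Phi (fun w => ∑ i ∈ s, c i * v i w) a = ∑ i ∈ s, c i * d.Phi (v i) a := by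
  have hb : ∀ i, BK (d.rd a (v i)) := by
    intro i
    obtain ⟨M, hM⟩ := hv i
    exact ⟨M, d.rd_bound a hM⟩
  unfold Phi rr
  rw [d.rd_sum, EK_sum s c _ hb]
  simp_rw [mul_add]
  rw [Finset.sum_add_distrib, Finset.mul_sum]
  congr 1
  exact Finset.sum_congr rfl (fun i _ => by ring)

variable [TopologicalSpace W] [DiscreteTopology W]

theorem c0_abs_le (v : C₀(W, 𝕜)) (w : W) : ‖v w‖ ≤ ‖v‖ := v.toBCF.norm_coe_le_norm w

theorem abs_Phi_le (d : PK 𝕜 W) (v : C₀(W, 𝕜)) (a : W) : ‖d.Phi v a‖ ≤ ‖v a‖ + ‖v‖ / 8 := by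
  unfold Phi
  exact (norm_add_le _ _).trans (add_le_add (le_refl _) (d.abs_rr_le a (c0_abs_le v)))

/-- the coordinate operator -/
noncomputable def PhiL (d : PK 𝕜 W) : C₀(W, 𝕜) →ₗ[𝕜] (W →ᵇ 𝕜) where
  toFun v := BoundedContinuousFunction.ofNormedAddCommGroupDiscrete (d.Phi v) (2 * ‖v‖) (by
    intro a
    have h1 := d.abs_Phi_le v a
    have h2 := c0_abs_le v a
    have h3 : 0 ≤ ‖v‖ := norm_nonneg v
    linarith)
  map_add' u v := by
    ext a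
    simp only [BoundedContinuousFunction.coe_ofNormedAddCommGroupDiscrete,
      BoundedContinuousFunction.coe_add, Pi.add_apply]
    unfold Phi rr
    have h1 : (⇑(u + v) : W → 𝕜) = fun w => u w + v w := rfl
    rw [h1, d.rd_add, EK_add ⟨‖u‖, d.rd_bound a (c0_abs_le u)⟩ ⟨‖v‖, d.rd_bound a (c0_abs_le v)⟩]
    ring
  map_smul' c v := by
    ext a
    simp only [BoundedContinuousFunction.coe_ofNormedAddCommGroupDiscrete,
      BoundedContinuousFunction.coe_smul, RingHom.id_apply, smul_eq_mul]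
    unfold Phi rr
    have h1 : (⇑(c • v) : W → 𝕜) = fun w => c * v w := rfl
    rw [h1, d.rd_smul, EK_smul c ⟨‖v‖, d.rd_bound a (c0_abs_le v)⟩]
    ring

theorem PhiL_apply (d : PK 𝕜 W) (v : C₀(W, 𝕜)) (a : W) : d.PhiL v a = d.Phi v a := rfl

theorem norm_PhiL_le (d : PK 𝕜 W) (v : C₀(W, 𝕜)) : ‖d.PhiL v‖ ≤ 2 * ‖v‖ := by
  rw [BoundedContinuousFunction.norm_le (by positivity)]
  intro a
  rw [d.PhiL_apply]
  have h1 := d.abs_Phi_le v a
  have h2 := c0_abs_le v a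
  have h3 : 0 ≤ ‖v‖ := norm_nonneg v
  linarith

theorem norm_le_PhiL (d : PK 𝕜 W) (v : C₀(W, 𝕜)) : ‖v‖ ≤ 2 * ‖d.PhiL v‖ := by
  have h1 : ‖v‖ ≤ ‖d.PhiL v‖ + ‖v‖ / 8 := by
    rw [← ZeroAtInftyContinuousMap.norm_toBCF_eq_norm,
      BoundedContinuousFunction.norm_le (by positivity)]
    intro a
    have h2 := (d.PhiL v).norm_coe_le_norm a
    rw [d.PhiL_apply] at h2
    have h3 := d.abs_rr_le a (c0_abs_le v)
    have h4 : v a = d.Phi v a - d.rr a v := by unfold Phi; ring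
    change ‖v a‖ ≤ _
    calc ‖v a‖ = ‖d.Phi v a - d.rr a v‖ := by rw [← h4]
      _ ≤ ‖d.Phi v a‖ + ‖d.rr a v‖ := norm_sub_le _ _
      _ ≤ ‖d.PhiL v‖ + ‖v‖ / 8 := add_le_add h2 h3
  have h5 : 0 ≤ ‖d.PhiL v‖ := norm_nonneg _
  linarith

theorem norm_PhiL_le' (d : PK 𝕜 W) (v : C₀(W, 𝕜)) : ‖d.PhiL v‖ ≤ (1 + 4 * d.kap) * ‖v‖ := by
  have hk := d.hkap0
  rw [BoundedContinuousFunction.norm_le (by positivity)]
  intro a
  rw [d.PhiL_apply]
  have h1 : ‖d.Phi v a‖ ≤ ‖v a‖ + ‖d.rr a v‖ := norm_add_le _ _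
  have h2 := c0_abs_le v a
  have h3 := d.abs_rr_le' a (c0_abs_le v)
  linarith

theorem norm_le_PhiL' (d : PK 𝕜 W) (v : C₀(W, 𝕜)) : (1 - 4 * d.kap) * ‖v‖ ≤ ‖d.PhiL v‖ := by
  have hk := d.hkap0
  have h1 : ‖v‖ ≤ ‖d.PhiL v‖ + 4 * d.kap * ‖v‖ := by
    rw [← ZeroAtInftyContinuousMap.norm_toBCF_eq_norm,
      BoundedContinuousFunction.norm_le (by positivity)]
    intro a
    have h2 := (d.PhiL v).norm_coe_le_norm a
    rw [d.PhiL_apply] at h2
    have h3 := d.abs_rr_le' a (c0_abs_le v)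
    have h4 : v a = d.Phi v a - d.rr a v := by unfold Phi; ring
    change ‖v a‖ ≤ _
    calc ‖v a‖ = ‖d.Phi v a - d.rr a v‖ := by rw [← h4]
      _ ≤ ‖d.Phi v a‖ + ‖d.rr a v‖ := norm_sub_le _ _
      _ ≤ ‖d.PhiL v‖ + 4 * d.kap * ‖v‖ := add_le_add h2 h3
  linarith

/-- the Banach space -/
noncomputable def Sp (d : PK 𝕜 W) : Submodule 𝕜 (W →ᵇ 𝕜) := LinearMap.range d.PhiL

theorem isClosed_Sp (d : PK 𝕜 W) : IsClosed (d.Sp : Set (W →ᵇ 𝕜)) := by
  have h1 : AntilipschitzWith 2 (d.PhiL.mkContinuous 2 d.norm_PhiL_le) :=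
    AddMonoidHomClass.antilipschitz_of_bound _ (fun v => d.norm_le_PhiL v)
  have h2 := h1.isClosed_range (d.PhiL.mkContinuous 2 d.norm_PhiL_le).uniformContinuous
  have h3 : (d.Sp : Set (W →ᵇ 𝕜)) = Set.range (d.PhiL.mkContinuous 2 d.norm_PhiL_le) := by
    ext u
    simp [Sp]
  rw [h3]
  exact h2

/-- the Banach space as a type -/
def SpT (d : PK 𝕜 W) : Type _ := d.Sp

noncomputable instance (d : PK 𝕜 W) : NormedAddCommGroup d.SpT :=
  inferInstanceAs (NormedAddCommGroup d.Sp)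

noncomputable instance (d : PK 𝕜 W) : NormedSpace 𝕜 d.SpT :=
  inferInstanceAs (NormedSpace 𝕜 d.Sp)

instance (d : PK 𝕜 W) : CompleteSpace d.SpT :=
  d.isClosed_Sp.completeSpace_coe

/-- the coordinate functional `φ_a` on the space -/
def coord (d : PK 𝕜 W) (y : d.SpT) (a : W) : 𝕜 := (y : d.Sp).1 a

theorem coord_add (d : PK 𝕜 W) (y z : d.SpT) (a : W) :
    d.coord (y + z) a = d.coord y a + d.coord z a := rfl

theorem coord_smul (d : PK 𝕜 W) (c : 𝕜) (y : d.SpT) (a : W) :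
    d.coord (c • y) a = c * d.coord y a := rfl

theorem coord_zero (d : PK 𝕜 W) (a : W) : d.coord 0 a = 0 := rfl

theorem norm_le_iff (d : PK 𝕜 W) (y : d.SpT) {C : ℝ} (hC : 0 ≤ C) :
    ‖y‖ ≤ C ↔ ∀ a, ‖d.coord y a‖ ≤ C :=
  BoundedContinuousFunction.norm_le (f := (y : d.Sp).1) hC

theorem abs_coord_le (d : PK 𝕜 W) (y : d.SpT) (a : W) : ‖d.coord y a‖ ≤ ‖y‖ :=
  (d.norm_le_iff y (norm_nonneg y)).mp (le_refl _) a

/-- the vector with coordinate sequence `v` -/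
noncomputable def vec (d : PK 𝕜 W) (v : C₀(W, 𝕜)) : d.SpT := ⟨d.PhiL v, ⟨v, rfl⟩⟩

theorem coord_vec (d : PK 𝕜 W) (v : C₀(W, 𝕜)) (a : W) : d.coord (d.vec v) a = d.Phi v a := rfl

theorem exists_vec (d : PK 𝕜 W) (y : d.SpT) : ∃ v, d.vec v = y := by
  obtain ⟨v, hv⟩ := y.2
  exact ⟨v, Subtype.ext hv⟩

theorem vec_zero (d : PK 𝕜 W) : d.vec 0 = 0 := Subtype.ext (map_zero d.PhiL)

theorem norm_le_vec (d : PK 𝕜 W) (v : C₀(W, 𝕜)) : ‖v‖ ≤ 2 * ‖d.vec v‖ := d.norm_le_PhiL v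

theorem finite_large (v : C₀(W, 𝕜)) {ε : ℝ} (hε : 0 < ε) : {a | ε ≤ ‖v a‖}.Finite := by
  have h1 : Tendsto v (cofinite) (𝓝 0) := by
    rw [← Filter.cocompact_eq_cofinite]
    exact v.zero_at_infty'
  have h2 : ∀ᶠ a in cofinite, ‖v a‖ < ε := by
    have h3 := h1.norm
    rw [norm_zero] at h3
    exact h3.eventually_lt_const hε
  rw [Filter.eventually_cofinite] at h2
  simpa using h2

theorem countable_supp (v : C₀(W, 𝕜)) : {a | v a ≠ 0}.Countable := by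
  have : {a | v a ≠ 0} ⊆ ⋃ k : ℕ, {a | 1 / ((k:ℝ) + 1) ≤ ‖v a‖} := by
    intro a ha
    obtain ⟨k, hk⟩ := exists_nat_one_div_lt (norm_pos_iff.mpr ha)
    exact mem_iUnion.mpr ⟨k, hk.le⟩
  exact (countable_iUnion (fun k => (finite_large v (by positivity)).countable)).mono this

/-- norming functionals are finite combinations of the coordinate functionals -/
theorem support_functional (d : PK 𝕜 W) (u : d.SpT) (f : d.SpT →L[𝕜] 𝕜) (hu : ‖u‖ = 1)
    (hfu : f u = ((‖f‖ : ℝ) : 𝕜)) :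
    ∃ c : W →₀ 𝕜, ∀ y : d.SpT, f y = c.sum (fun a r => r * d.coord y a) := by
  classical
  obtain ⟨v, hv⟩ := d.exists_vec u
  have hvpos : 0 < ‖v‖ := by
    rw [norm_pos_iff]
    rintro rfl
    rw [vec_zero] at hv
    rw [← hv, norm_zero] at hu
    exact zero_ne_one hu
  set F : Set W := {a | ‖v‖ / 4 ≤ ‖v a‖} with hF
  have hFfin : F.Finite := finite_large v (by positivity)
  have hsmall : ∀ a, a ∉ F → ‖d.coord u a‖ ≤ 3 / 4 := by
    intro a ha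
    have h1 : ‖v a‖ < ‖v‖ / 4 := not_le.mp ha
    have h2 := d.abs_Phi_le v a
    have h3 := d.norm_le_vec v
    rw [hv, hu] at h3
    have h4 : d.coord u a = d.Phi v a := by rw [← hv]; rfl
    rw [h4]
    linarith
  have : Finite F := hFfin.to_subtype
  let ev : W → (d.SpT →ₗ[𝕜] 𝕜) := fun a =>
    { toFun := fun y => d.coord y a
      map_add' := fun y z => rfl
      map_smul' := fun c y => rfl }
  have hker : ⨅ a : F, LinearMap.ker (ev a) ≤ LinearMap.ker (f : d.SpT →ₗ[𝕜] 𝕜) := by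
    intro y hy
    rw [Submodule.mem_iInf] at hy
    have hy' : ∀ a ∈ F, d.coord y a = 0 := fun a ha => hy ⟨a, ha⟩
    rw [LinearMap.mem_ker]
    change f y = 0
    set ε : ℝ := 1 / (4 * (‖y‖ + 1)) with hε
    have hεpos : 0 < ε := by positivity
    have hεy : ε * ‖y‖ ≤ 1 / 4 := by
      rw [hε, div_mul_eq_mul_div, div_le_div_iff₀ (by positivity) (by norm_num)]
      have := norm_nonneg y
      nlinarith
    have hball : ∀ s : 𝕜, ‖s‖ = ε → ‖u + s • y‖ ≤ 1 := by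
      intro s hs
      rw [d.norm_le_iff _ zero_le_one]
      intro a
      rw [coord_add, coord_smul]
      by_cases ha : a ∈ F
      · rw [hy' a ha, mul_zero, add_zero, ← hu]
        exact d.abs_coord_le u a
      · have h1 := hsmall a ha
        have h2 : ‖d.coord y a‖ ≤ ‖y‖ := d.abs_coord_le y a
        calc ‖d.coord u a + s * d.coord y a‖
            ≤ ‖d.coord u a‖ + ‖s * d.coord y a‖ := norm_add_le _ _
          _ ≤ 3 / 4 + ε * ‖y‖ := by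
            rw [norm_mul, hs]
            exact add_le_add h1 (mul_le_mul_of_nonneg_left h2 hεpos.le)
          _ ≤ 1 := by linarith
    by_contra hne
    have hfy : 0 < ‖f y‖ := norm_pos_iff.2 hne
    have hfy' : ((‖f y‖ : ℝ) : 𝕜) ≠ 0 := by
      rw [Ne, RCLike.ofReal_eq_zero]
      exact hfy.ne'
    have hs : ‖((ε : ℝ) : 𝕜) * ((starRingEnd 𝕜) (f y) / ((‖f y‖ : ℝ) : 𝕜))‖ = ε := by
      rw [norm_mul, norm_div, RCLike.norm_ofReal, RCLike.norm_ofReal, RCLike.norm_conj,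
        abs_of_pos hεpos, abs_of_pos hfy, div_self hfy.ne', mul_one]
    have hsf : ((ε : ℝ) : 𝕜) * ((starRingEnd 𝕜) (f y) / ((‖f y‖ : ℝ) : 𝕜)) * f y =
        ((ε * ‖f y‖ : ℝ) : 𝕜) := by
      have h5 : (starRingEnd 𝕜) (f y) * f y = ((‖f y‖ : ℝ) : 𝕜) ^ 2 := RCLike.conj_mul (f y)
      calc ((ε : ℝ) : 𝕜) * ((starRingEnd 𝕜) (f y) / ((‖f y‖ : ℝ) : 𝕜)) * f y
          = ((ε : ℝ) : 𝕜) * (((starRingEnd 𝕜) (f y) * f y) / ((‖f y‖ : ℝ) : 𝕜)) := by ring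
        _ = ((ε * ‖f y‖ : ℝ) : 𝕜) := by
            rw [h5, pow_two, mul_div_assoc, div_self hfy', mul_one, RCLike.ofReal_mul]
    have h1 : ‖f (u + (((ε : ℝ) : 𝕜) * ((starRingEnd 𝕜) (f y) / ((‖f y‖ : ℝ) : 𝕜))) • y)‖ ≤
        ‖f‖ := by
      calc _ ≤ ‖f‖ * ‖u + (((ε : ℝ) : 𝕜) *
              ((starRingEnd 𝕜) (f y) / ((‖f y‖ : ℝ) : 𝕜))) • y‖ := f.le_opNorm _
        _ ≤ ‖f‖ * 1 := mul_le_mul_of_nonneg_left (hball _ hs) (norm_nonneg _)
        _ = ‖f‖ := mul_one _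
    rw [map_add, map_smul, hfu, smul_eq_mul, hsf, ← RCLike.ofReal_add, RCLike.norm_ofReal,
      abs_of_nonneg (by positivity)] at h1
    have h2 : 0 < ε * ‖f y‖ := by positivity
    linarith
  have hspan := mem_span_of_iInf_ker_le_ker hker
  have hspan2 : (f : d.SpT →ₗ[𝕜] 𝕜) ∈ Submodule.span 𝕜 (Set.range ev) := by
    refine Submodule.span_mono ?_ hspan
    rintro _ ⟨a, rfl⟩
    exact ⟨a.1, rfl⟩
  rw [Finsupp.mem_span_range_iff_exists_finsupp] at hspan2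
  obtain ⟨c, hc⟩ := hspan2
  refine ⟨c, fun y => ?_⟩
  have h1 : f y = (f : d.SpT →ₗ[𝕜] 𝕜) y := rfl
  rw [h1, ← hc]
  simp only [Finsupp.sum, LinearMap.sum_apply, LinearMap.smul_apply, smul_eq_mul]
  rfl

/-- the unit vector at `a` -/
noncomputable def single (a : W) : C₀(W, 𝕜) where
  toFun := Pi.single a 1
  continuous_toFun := continuous_of_discreteTopology
  zero_at_infty' := by
    rw [Filter.cocompact_eq_cofinite]
    have h : ∀ᶠ w in (cofinite : Filter W), (Pi.single a 1 : W → 𝕜) w = 0 := by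
      rw [Filter.eventually_cofinite]
      refine (Set.finite_singleton a).subset ?_
      intro w hw
      by_contra hne
      exact hw (Pi.single_eq_of_ne hne _)
    refine Tendsto.congr' ?_ tendsto_const_nhds
    filter_upwards [h] with w hw
    exact hw.symm

theorem single_apply_self (a : W) : (single a : C₀(W, 𝕜)) a = (1:𝕜) := Pi.single_eq_same (M := fun _ => 𝕜) a 1

theorem single_apply_ne {a w : W} (h : w ≠ a) : (single a : C₀(W, 𝕜)) w = (0:𝕜) :=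
  Pi.single_eq_of_ne (M := fun _ => 𝕜) h 1

theorem rr_single_of_le (d : PK 𝕜 W) {a b : W} (h : b ≤ a) : d.rr b (single a : C₀(W, 𝕜)) = 0 := by
  unfold rr
  have h1 : d.rd b (single a : C₀(W, 𝕜)) = fun _ => 0 := by
    funext m
    by_cases hm : ∃ β, β < b ∧ d.e b β = m
    · obtain ⟨β, hβ, rfl⟩ := hm
      rw [d.rd_apply hβ, single_apply_ne (ne_of_lt (lt_of_lt_of_le hβ h))]
    · rw [d.rd_of_not hm]
  rw [h1, EK_zero, mul_zero]

end PK

end Pool.Agent.Y832.AU.K
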