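import Pool.Agent.Helper539.AuerTuple
import Pool.Agent.Y832.AU.K.Exp

/-! The tuple lemma with real or complex coefficients (adapted by helper832 from
`Pool/Agent/Helper539/AuerTuple.lean`). -/

namespace Pool.Agent.Y832.AU.K

open Set Filter Topology Pool.Agent.Helper539.Auer Pool.Agent.Y832.AU

variable {𝕜 : Type} [RCLike 𝕜]

theorem differentiable_prod_aux {E : Type*} [NormedAddCommGroup E] [NormedSpace ℝ E] {ι : Type*}
    (s : Finset ι) (f : ι → E → 𝕜) (hf : ∀ i, Differentiable ℝ (f i)) :
    Differentiable ℝ (fun x => ∏ i ∈ s, f i x) := by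
  classical
  induction s using Finset.induction_on with
  | empty => simp
  | insert a s ha ih =>
    have : (fun x => ∏ i ∈ insert a s, f i x) = fun x => f a x * ∏ i ∈ s, f i x := by
      funext x
      rw [Finset.prod_insert ha]
    rw [this]
    exact (hf a).mul ih

theorem differentiable_det {E : Type*} [NormedAddCommGroup E] [NormedSpace ℝ E] {n : ℕ}
    (A : E → Matrix (Fin n) (Fin n) 𝕜) (hA : ∀ i j, Differentiable ℝ (fun x => A x i j)) :
    Differentiable ℝ (fun x => (A x).det) := by
  have : (fun x => (A x).det) = fun x => ∑ σ : Equiv.Perm (Fin n),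
      ((Equiv.Perm.sign σ : ℤ) : 𝕜) * ∏ i, A x (σ i) i := by
    funext x
    rw [Matrix.det_apply']
  rw [this]
  apply Differentiable.fun_sum
  intro σ _
  exact (differentiable_prod_aux Finset.univ (fun i x => A x (σ i) i)
    (fun i => hA _ _)).const_mul _

/-- The tuple lemma. -/
theorem tuple_lemmaK {T : Set ℝ} (hT : SuperSparse T) (hT01 : ∀ t ∈ T, 0 ≤ t ∧ t ≤ 1 / 2) {ι : Type*} :
    ∀ (n : ℕ) (K : Set ι) (p : ι → Fin n → ℝ) (b : Fin n → Fin n → ℕ → 𝕜),
      (∀ i j, BK (b i j)) → (∀ i, LinearIndependent 𝕜 (b i)) → ¬ K.Countable →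
      (∀ k ∈ K, ∀ i, p k i ∈ T) → (∀ k ∈ K, Function.Injective (p k)) →
      (∀ k ∈ K, ∀ l ∈ K, k ≠ l → ∀ i, p k i ≠ p l i) →
      (∀ k ∈ K, (Matrix.of fun i j => EK (b i j) (p k i)).det = 0) → False := by
  classical
  intro n
  induction n with
  | zero =>
    intro K p b _ _ hK _ _ _ hdet
    have : K.Nonempty := by
      by_contra hcon
      rw [not_nonempty_iff_eq_empty] at hcon
      rw [hcon] at hK
      exact hK countable_empty
    obtain ⟨k, hk⟩ := this
    have := hdet k hk
    simp at this
  | succ n ih =>
    intro K p b hb hli hK hpT hpi hpd hdet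
    have hinj : InjOn p K := by
      intro k hk l hl h
      by_contra hne
      exact hpd k hk l hl hne 0 (by rw [h])
    have hG : ¬ (p '' K).Countable := fun h => hK (countable_of_injective_of_countable_image hinj h)
    obtain ⟨i, G', hG'G, hG'c, hG'⟩ := exists_dominating hT (p '' K) hG
      (by rintro _ ⟨k, hk, rfl⟩ j; exact hpT k hk j)
      (by rintro _ ⟨k, hk, rfl⟩; exact hpi k hk)
      (by
        rintro _ ⟨k, hk, rfl⟩ _ ⟨l, hl, rfl⟩ hne j
        exact hpd k hk l hl (fun h => hne (by rw [h])) j)
    -- cofactors
    let minor : Fin (n + 1) → (Fin (n + 1) → ℝ) → 𝕜 := fun j q =>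
      ((Matrix.of fun k l => EK (b k l) (q k)).submatrix i.succAbove j.succAbove).det
    let Cof : Fin (n + 1) → (Fin (n + 1) → ℝ) → 𝕜 := fun j q => (-1) ^ (i + j : ℕ) * minor j q
    let F : ℕ → (Fin (n + 1) → ℝ) → 𝕜 := fun m q =>
      ∑ j, EK (shK m (b i j)) (q i) * Cof j q
    have hCofdiff : ∀ j, Differentiable ℝ (Cof j) := by
      intro j
      apply Differentiable.const_mul
      apply differentiable_det
      intro k l
      have h1 : Differentiable ℝ (EK (b (i.succAbove k) (j.succAbove l))) :=
        fun t => (hasDerivAt_EK_shift (hb _ _) 0 t).differentiableAt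
      have h2 : Differentiable ℝ (fun q : Fin (n+1) → ℝ => q (i.succAbove k)) := by fun_prop
      exact h1.comp h2
    have hFdiff : ∀ m, Differentiable ℝ (F m) := by
      intro m
      apply Differentiable.fun_sum
      intro j _
      have h1 : Differentiable ℝ (EK (shK m (b i j))) :=
        fun t => (hasDerivAt_EK_shift (hb i j) m t).differentiableAt
      have h2 : Differentiable ℝ (fun q : Fin (n+1) → ℝ => q i) := by fun_prop
      exact (h1.comp h2).mul (hCofdiff j)
    have hFderiv : ∀ m q, fderiv ℝ (F m) q (Pi.single i 1) = F (m + 1) q := by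
      intro m q
      have hCofline : ∀ j (s : ℝ), Cof j (q + s • Pi.single i 1) = Cof j q := by
        intro j s
        simp only [Cof, minor]
        congr 2
        ext k l
        simp only [Matrix.submatrix_apply, Matrix.of_apply, Pi.add_apply, Pi.smul_apply,
          smul_eq_mul]
        rw [Pi.single_eq_of_ne (Fin.succAbove_ne i k)]
        simp
      have h1 : HasDerivAt (fun s : ℝ => F m (q + s • Pi.single i 1))
          (fderiv ℝ (F m) q (Pi.single i 1)) 0 := by
        have hl : HasDerivAt (fun s : ℝ => q + s • (Pi.single i 1 : Fin (n+1) → ℝ))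
            (Pi.single i 1) 0 := by
          have := ((hasDerivAt_id (0:ℝ)).smul_const (Pi.single i 1 : Fin (n+1) → ℝ)).const_add q
          simpa using this
        have hf : HasFDerivAt (F m) (fderiv ℝ (F m) q) (q + (0:ℝ) • (Pi.single i 1 : Fin (n+1) → ℝ)) := by
          simpa using (hFdiff m q).hasFDerivAt
        exact hf.comp_hasDerivAt 0 hl
      have h2 : HasDerivAt (fun s : ℝ => F m (q + s • Pi.single i 1)) (F (m + 1) q) 0 := by
        have heq : (fun s : ℝ => F m (q + s • Pi.single i 1)) =
            fun s : ℝ => ∑ j, EK (shK m (b i j)) (q i + s) * Cof j q := by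
          funext s
          simp only [F, hCofline]
          apply Finset.sum_congr rfl
          intro j _
          simp
        rw [heq]
        apply HasDerivAt.fun_sum
        intro j _
        apply HasDerivAt.mul_const
        have h3 := hasDerivAt_EK_shift (hb i j) m (q i + 0)
        have h4 : HasDerivAt (fun s : ℝ => q i + s) 1 0 := (hasDerivAt_id (0:ℝ)).const_add (q i)
        have h5 : HasDerivAt (fun s : ℝ => EK (shK m (b i j)) (q i + s))
            ((1 : ℝ) • EK (shK (m + 1) (b i j)) (q i + 0)) 0 := HasDerivAt.scomp (0:ℝ) h3 h4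
        rw [one_smul, add_zero] at h5
        exact h5
      exact h1.unique h2
    have hF0 : ∀ m, ∀ q ∈ G', F m q = 0 := by
      intro m
      induction m with
      | zero =>
        intro q hq
        obtain ⟨k, hk, rfl⟩ := hG'G hq
        have := hdet k hk
        rw [Matrix.det_succ_row _ i] at this
        rw [← this]
        simp only [F, Cof, minor]
        apply Finset.sum_congr rfl
        intro j _
        simp only [Matrix.of_apply]
        have h0 : shK 0 (b i j) = b i j := by funext m; simp [shK]
        rw [h0]
        ring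
      | succ m ihm =>
        intro q hq
        have hre : ∀ q ∈ G', RCLike.re (F (m + 1) q) = 0 :=
          hG' (fun q => RCLike.re (F m q)) (fun q => RCLike.re (F (m + 1) q))
            (RCLike.continuous_re.comp (hFdiff (m + 1)).continuous)
            (fun q => ⟨RCLike.reCLM.comp (fderiv ℝ (F m) q),
              RCLike.reCLM.hasFDerivAt.comp q (hFdiff m q).hasFDerivAt, by
                have h7 := congrArg RCLike.re (hFderiv m q)
                exact h7⟩)
            (fun q hq => by
              change RCLike.re (F m q) = 0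
              rw [ihm q hq, map_zero])
        have him : ∀ q ∈ G', RCLike.im (F (m + 1) q) = 0 :=
          hG' (fun q => RCLike.im (F m q)) (fun q => RCLike.im (F (m + 1) q))
            (RCLike.continuous_im.comp (hFdiff (m + 1)).continuous)
            (fun q => ⟨RCLike.imCLM.comp (fderiv ℝ (F m) q),
              RCLike.imCLM.hasFDerivAt.comp q (hFdiff m q).hasFDerivAt, by
                have h7 := congrArg RCLike.im (hFderiv m q)
                exact h7⟩)
            (fun q hq => by
              change RCLike.im (F m q) = 0
              rw [ihm q hq, map_zero])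
        apply RCLike.ext
        · rw [map_zero]
          exact hre q hq
        · rw [map_zero]
          exact him q hq
    have hCof0 : ∀ q ∈ G', ∀ j, Cof j q = 0 := by
      intro q hq
      have hqT : q i ∈ T := by
        obtain ⟨k, hk, rfl⟩ := hG'G hq
        exact hpT k hk i
      let x : ℕ → 𝕜 := fun m => ∑ j, Cof j q * b i j m
      have hx : BK x := BK.sum Finset.univ _ _ (hb i)
      have hx0 : x = 0 := by
        apply eq_zero_of_EK_shift hx (hT01 _ hqT).1 (hT01 _ hqT).2
        intro m
        have h1 : shK m x = fun k => ∑ j, Cof j q * (shK m (b i j)) k := rfl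
        rw [h1, EK_sum Finset.univ _ _ (fun j => (hb i j).shK m)]
        have := hF0 m q hq
        simp only [F] at this
        rw [← this]
        exact Finset.sum_congr rfl (fun j _ => mul_comm _ _)
      have h2 : ∑ j, Cof j q • b i j = 0 := by
        rw [← hx0]
        funext m
        simp [x, Finset.sum_apply]
      exact (Fintype.linearIndependent_iff.mp (hli i)) _ h2
    -- induction step
    let K' : Set ι := {k | k ∈ K ∧ p k ∈ G'}
    have hK'c : ¬ K'.Countable := by
      intro hc
      apply hG'c
      refine (hc.image p).mono ?_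
      intro q hq
      obtain ⟨k, hk, rfl⟩ := hG'G hq
      exact ⟨k, ⟨hk, hq⟩, rfl⟩
    refine ih K' (fun k l => p k (i.succAbove l))
      (fun l j => b (i.succAbove l) ((0 : Fin (n + 1)).succAbove j))
      (fun _ _ => hb _ _) ?_ hK'c (fun k hk l => hpT k hk.1 _) ?_ ?_ ?_
    · intro l
      exact (hli (i.succAbove l)).comp _ (Fin.succAbove_right_injective)
    · intro k hk
      exact (hpi k hk.1).comp Fin.succAbove_right_injective
    · intro k hk l hl hne j
      exact hpd k hk.1 l hl.1 hne _
    · intro k hk
      have h1 := hCof0 (p k) hk.2 0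
      simp only [Cof, mul_eq_zero] at h1
      rcases h1 with h1 | h1
      · exfalso
        exact (pow_ne_zero _ (by norm_num : (-1:𝕜) ≠ 0)) h1
      · exact h1

end Pool.Agent.Y832.AU.K
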